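import Pool.Agent.Q131.Lie.Rigid

/-!
A compact Lie group has only finitely many conjugacy classes of finite subgroups of bounded order.
-/

set_option linter.unusedSectionVars false

namespace Pool.Agent.Q131.Lie

open scoped Manifold ContDiff Topology
open Set Filter

noncomputable section

variable {E : Type*} [NormedAddCommGroup E] [NormedSpace ℝ E] [CompleteSpace E]
  {H : Type*} [TopologicalSpace H] (I : ModelWithCorners ℝ E H) [I.Boundaryless]
  {G : Type*} [TopologicalSpace G] [ChartedSpace H G] [Group G] [LieGroup I ∞ G]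
  [CompactSpace G] [T2Space G]

include I in
/-- Finitely many conjugacy classes of homomorphisms from a finite group. -/
theorem finite_hom (F : Type*) [Group F] [Fintype F] :
    ∃ S : Set (F →* G), S.Finite ∧ ∀ b : F →* G, ∃ a ∈ S, ∃ g : G, ∀ x, b x = g * a x * g⁻¹ := by
  have htg : IsTopologicalGroup G := topologicalGroup_of_lieGroup I ∞
  set K : Set (F → G) := {c | ∀ x y, c (x * y) = c x * c y} with hK
  have hKc : IsCompact K := by
    apply IsClosed.isCompact
    have : K = ⋂ x, ⋂ y, {c : F → G | c (x * y) = c x * c y} := by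
      ext c; simp [hK]
    rw [this]
    refine isClosed_iInter fun x => isClosed_iInter fun y => ?_
    exact isClosed_eq (continuous_apply _) ((continuous_apply x).mul (continuous_apply y))
  -- homomorphism associated with an element of `K`
  have hom : ∀ c ∈ K, ∃ a : F →* G, (a : F → G) = c := by
    intro c hc
    have h1 : c 1 = 1 := by
      have := hc 1 1
      rw [mul_one] at this
      exact (mul_eq_left.mp this.symm)
    exact ⟨{ toFun := c, map_one' := h1, map_mul' := hc }, rfl⟩
  obtain ⟨t, ht, htK⟩ := hKc.elim_nhds_subcover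
    (fun c => {d | d ∈ K → ∃ g : G, ∀ x, d x = g * c x * g⁻¹}) (by
      intro c hc
      obtain ⟨a, rfl⟩ := hom c hc
      exact rigid I a)
  refine ⟨{a : F →* G | (a : F → G) ∈ t}, ?_, ?_⟩
  · apply Set.Finite.of_finite_image (f := fun a : F →* G => (a : F → G)) _
      (fun a _ b _ h => DFunLike.coe_injective h)
    apply t.finite_toSet.subset
    rintro _ ⟨a, ha, rfl⟩
    exact ha
  · intro b
    have hb : (b : F → G) ∈ K := fun x y => map_mul b x y
    have := htK hb
    simp only [Set.mem_iUnion] at this
    obtain ⟨c, hct, hc⟩ := this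
    obtain ⟨a, rfl⟩ := hom c (ht c hct)
    exact ⟨a, hct, hc hb⟩

instance finite_group_str (k : ℕ) : Finite (Group (Fin k)) := by
  apply Finite.of_injective (fun s : Group (Fin k) => (s.mul : Fin k → Fin k → Fin k))
  intro s t h
  apply Group.ext
  exact h

include I in
/-- For every conjugation invariant function on subgroups of a compact Lie group, only finitely
many values are taken on the finite subgroups of order at most `n`. -/
theorem finite_values {α : Type*} (T : Subgroup G → α)
    (hT : ∀ (Γ : Subgroup G) (g : G), T (Γ.map (MulAut.conj g).toMonoidHom) = T Γ) (n : ℕ) :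
    {t : α | ∃ Γ : Subgroup G, Finite Γ ∧ Nat.card Γ ≤ n ∧ T Γ = t}.Finite := by
  have key : ∀ (k : ℕ) (s : Group (Fin k)), {t : α | ∃ b : Fin k →* G, T b.range = t}.Finite := by
    intro k s
    obtain ⟨S, hS, hS'⟩ := finite_hom I (G := G) (Fin k)
    apply (hS.image (fun a => T a.range)).subset
    rintro t ⟨b, rfl⟩
    obtain ⟨a, ha, g, hg⟩ := hS' b
    refine ⟨a, ha, ?_⟩
    simp only
    rw [← hT a.range g]
    congr 1
    rw [MonoidHom.map_range]
    congr 1
    ext x
    simp [hg x]
  have hfin : (⋃ k ∈ Set.Iic n, ⋃ s : Group (Fin k),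
      {t : α | letI := s; ∃ b : Fin k →* G, T b.range = t}).Finite := by
    apply (Set.finite_Iic n).biUnion
    intro k _
    apply Set.finite_iUnion
    intro s
    exact key k s
  apply hfin.subset
  rintro t ⟨Γ, hΓ, hcard, rfl⟩
  simp only [Set.mem_iUnion]
  have e : Fin (Nat.card Γ) ≃ Γ := (Finite.equivFin Γ).symm
  refine ⟨Nat.card Γ, hcard, e.group, ?_⟩
  letI : Group (Fin (Nat.card Γ)) := e.group
  refine ⟨Γ.subtype.comp e.mulEquiv.toMonoidHom, ?_⟩
  congr 1
  ext x
  simp only [MonoidHom.mem_range, MonoidHom.comp_apply]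
  constructor
  · rintro ⟨y, rfl⟩
    exact (e.mulEquiv y).2
  · intro hx
    refine ⟨e.symm ⟨x, hx⟩, ?_⟩
    change ((e (e.symm ⟨x, hx⟩) : Γ) : G) = x
    rw [Equiv.apply_symm_apply]

end

end Pool.Agent.Q131.Lie
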