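import Mathlib

/-!
Local rigidity of homomorphisms from a finite group to a Lie group.
-/

set_option linter.unusedSectionVars false

namespace Pool.Agent.Q131.Lie

open scoped Manifold ContDiff Topology NNReal
open Set Filter Metric

noncomputable section

section ift

variable {P E : Type*} [NormedAddCommGroup P] [NormedSpace ℝ P] [NormedAddCommGroup E]
  [NormedSpace ℝ E] [CompleteSpace E]

/-- A parametrised inverse function statement. -/
theorem param_ift (f : P × E → E) (T : P × E →L[ℝ] E) (p0 : P) (e0 : E)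
    (hf : HasStrictFDerivAt f T (p0, e0)) (hT : ∀ v : E, T (0, v) = v) (h0 : f (p0, e0) = 0) :
    ∃ r > 0, (∀ᶠ p in 𝓝 p0, InjOn (fun v => f (p, v)) (ball e0 r)) ∧
      ∀ ρ > 0, ∀ᶠ p in 𝓝 p0, ∃ v ∈ ball e0 ρ, f (p, v) = 0 := by
  obtain ⟨s, hs, hap⟩ := hf.approximates_deriv_on_nhds (c := 1/2) (Or.inr (by norm_num))
  rw [nhds_prod_eq, Filter.mem_prod_iff] at hs
  obtain ⟨U, hU, V, hV, hUV⟩ := hs
  obtain ⟨r, hr, hrV⟩ := Metric.mem_nhds_iff.mp hV
  have key : ∀ p ∈ U, ∀ v ∈ ball e0 r, ∀ v' ∈ ball e0 r,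
      ‖f (p, v) - f (p, v') - (v - v')‖ ≤ 1 / 2 * ‖v - v'‖ := by
    intro p hp v hv v' hv'
    have := hap (x := (p, v)) (hUV ⟨hp, hrV hv⟩) (y := (p, v')) (hUV ⟨hp, hrV hv'⟩)
    have e : (p, v) - (p, v') = ((0 : P), v - v') := by simp
    rw [e, hT] at this
    simpa using this
  refine ⟨r, hr, ?_, ?_⟩
  · filter_upwards [hU] with p hp v hv v' hv' hvv
    have h1 := key p hp v hv v' hv'
    simp only at hvv
    rw [hvv, sub_self, zero_sub, norm_neg] at h1
    have h2 : ‖v - v'‖ ≤ 0 := by linarith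
    exact sub_eq_zero.mp (norm_le_zero_iff.mp h2)
  · intro ρ hρ
    set ε := min (ρ / 2) (r / 2) with hε
    have hε0 : 0 < ε := by positivity
    have hεr : ε < r := lt_of_le_of_lt (min_le_right _ _) (by linarith)
    have hερ : ε < ρ := lt_of_le_of_lt (min_le_left _ _) (by linarith)
    have hc : ContinuousAt (fun p => f (p, e0)) p0 := by
      have h1 := hf.continuousAt
      exact ContinuousAt.comp (f := fun p : P => (p, e0)) h1 (by fun_prop)
    have hsmall : ∀ᶠ p in 𝓝 p0, ‖f (p, e0)‖ < ε / 2 := by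
      have h2 : Tendsto (fun p => ‖f (p, e0)‖) (𝓝 p0) (𝓝 0) := by
        have := hc.norm
        rw [ContinuousAt, h0, norm_zero] at this
        exact this
      exact h2.eventually_lt_const (by linarith)
    filter_upwards [hU, hsmall] with p hp hps
    have hap' : ApproximatesLinearOn (fun v => f (p, v)) (ContinuousLinearMap.id ℝ E)
        (closedBall e0 ε) (1/2) := by
      intro v hv v' hv'
      have hv2 : v ∈ ball e0 r := closedBall_subset_ball hεr hv
      have hv2' : v' ∈ ball e0 r := closedBall_subset_ball hεr hv'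
      simpa using key p hp v hv2 v' hv2'
    let R : (ContinuousLinearMap.id ℝ E).NonlinearRightInverse :=
      { toFun := id
        nnnorm := 1
        bound' := by intro y; simp
        right_inv' := by intro y; simp }
    have hsurj := hap'.surjOn_closedBall_of_nonlinearRightInverse R hε0.le subset_rfl
    have hmem : (0 : E) ∈ closedBall (f (p, e0)) (((R.nnnorm : ℝ)⁻¹ - ((1/2 : ℝ≥0) : ℝ)) * ε) := by
      have hR : (R.nnnorm : ℝ) = 1 := rfl
      rw [mem_closedBall, dist_zero_left, hR]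
      push_cast
      linarith
    obtain ⟨v, hv, hv0⟩ := hsurj hmem
    exact ⟨v, closedBall_subset_ball hερ hv, hv0⟩

end ift

section rigid

variable {E : Type*} [NormedAddCommGroup E] [NormedSpace ℝ E] [CompleteSpace E]
  {H : Type*} [TopologicalSpace H] (I : ModelWithCorners ℝ E H) [I.Boundaryless]
  {G : Type*} [TopologicalSpace G] [ChartedSpace H G] [Group G] [LieGroup I ∞ G]
  {F : Type*} [Group F] [Fintype F]

/-- base point of the chart -/
def e0 (I : ModelWithCorners ℝ E H) (G : Type*) [TopologicalSpace G] [ChartedSpace H G] [Group G] :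
    E := extChartAt I (1 : G) 1

/-- inverse chart -/
def ps (I : ModelWithCorners ℝ E H) (G : Type*) [TopologicalSpace G] [ChartedSpace H G] [Group G] :
    E → G := (extChartAt I (1 : G)).symm

lemma ps_e0 : ps I G (e0 I G) = 1 := by
  unfold ps e0
  exact extChartAt_to_inv 1

lemma ps_smooth : ContMDiffAt 𝓘(ℝ, E) I ∞ (ps I G) (e0 I G) := by
  unfold ps e0
  have h := contMDiffOn_extChartAt_symm (I := I) (n := ∞) (1 : G)
  exact h.contMDiffAt (extChartAt_target_mem_nhds (I := I) (1 : G))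

lemma ph_smooth : ContMDiffAt I 𝓘(ℝ, E) ∞ (extChartAt I (1 : G)) (1 : G) :=
  contMDiffAt_extChartAt

lemma ps_ph {g : G} (hg : g ∈ (extChartAt I (1 : G)).source) : ps I G (extChartAt I (1 : G) g) = g :=
  (extChartAt I (1 : G)).left_inv hg

lemma ph_ps : ∀ᶠ v in 𝓝 (e0 I G), extChartAt I (1 : G) (ps I G v) = v := by
  filter_upwards [extChartAt_target_mem_nhds (I := I) (1 : G)] with v hv
  exact (extChartAt I (1 : G)).right_inv hv

/-- conjugation by `a x` in the chart -/
def Ax (a : F →* G) (x : F) (v : E) : E := extChartAt I (1 : G) (a x * ps I G v * (a x)⁻¹)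

lemma Ax_smooth (a : F →* G) (x : F) : ContDiffAt ℝ ∞ (Ax I a x) (e0 I G) := by
  rw [← contMDiffAt_iff_contDiffAt]
  have h1 := ps_smooth I (G := G)
  have h2 : ContMDiffAt 𝓘(ℝ, E) I ∞ (fun v => a x * ps I G v * (a x)⁻¹) (e0 I G) :=
    (contMDiffAt_const.mul h1).mul contMDiffAt_const
  have h3 : a x * ps I G (e0 I G) * (a x)⁻¹ = 1 := by rw [ps_e0]; group
  have h4 := ph_smooth I (G := G)
  rw [← h3] at h4
  have := ContMDiffAt.comp (e0 I G) h4 h2
  unfold Ax
  rw [h3] at this
  exact this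

lemma ps_cont : ContinuousAt (ps I G) (e0 I G) := (ps_smooth I (G := G)).continuousAt

lemma Ax_base (a : F →* G) (x : F) : Ax I a x (e0 I G) = e0 I G := by
  unfold Ax
  rw [ps_e0]
  have : a x * 1 * (a x)⁻¹ = 1 := by group
  rw [this]; rfl

lemma conj_mem (a : F →* G) (x : F) :
    ∀ᶠ v in 𝓝 (e0 I G), a x * ps I G v * (a x)⁻¹ ∈ (extChartAt I (1 : G)).source := by
  have : IsTopologicalGroup G := topologicalGroup_of_lieGroup I ∞
  have h1 : ContinuousAt (fun v => a x * ps I G v * (a x)⁻¹) (e0 I G) :=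
    (continuousAt_const.mul (ps_cont I (G := G))).mul continuousAt_const
  apply h1.eventually_mem
  have h3 : a x * ps I G (e0 I G) * (a x)⁻¹ = 1 := by rw [ps_e0]; group
  simp only [h3]
  exact extChartAt_source_mem_nhds (1 : G)

/-- derivative of conjugation in the chart -/
def Dx (a : F →* G) (x : F) : E →L[ℝ] E := fderiv ℝ (Ax I a x) (e0 I G)

lemma Ax_diff (a : F →* G) (x : F) : DifferentiableAt ℝ (Ax I a x) (e0 I G) :=
  (Ax_smooth I a x).differentiableAt (by simp)

lemma Dx_mul (a : F →* G) (x y : F) : Dx I a (x * y) = (Dx I a x).comp (Dx I a y) := by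
  have h1 : Ax I a (x * y) =ᶠ[𝓝 (e0 I G)] (Ax I a x) ∘ (Ax I a y) := by
    filter_upwards [conj_mem I a y] with v hv
    simp only [Function.comp_apply]
    unfold Ax
    rw [ps_ph I hv, map_mul]
    congr 1
    group
  unfold Dx
  rw [h1.fderiv_eq, fderiv_comp]
  · rw [Ax_base]
  · rw [Ax_base]; exact Ax_diff I a x
  · exact Ax_diff I a y

lemma Dx_one (a : F →* G) : Dx I a 1 = ContinuousLinearMap.id ℝ E := by
  have h1 : Ax I a 1 =ᶠ[𝓝 (e0 I G)] id := by
    filter_upwards [ph_ps I (G := G)] with v hv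
    unfold Ax
    simp only [map_one, one_mul, inv_one, mul_one, id]
    exact hv
  unfold Dx
  rw [h1.fderiv_eq, fderiv_id]

lemma Dx_inv (a : F →* G) (x : F) : (Dx I a x⁻¹).comp (Dx I a x) = ContinuousLinearMap.id ℝ E := by
  rw [← Dx_mul, inv_mul_cancel, Dx_one]

/-- the averaged map -/
def Fh (a : F →* G) (p : (F → E) × E) : E :=
  (Fintype.card F : ℝ)⁻¹ • ∑ x, Dx I a x⁻¹
    (extChartAt I (1 : G) (a x * ps I G (p.1 x) * ps I G p.2 * (a x)⁻¹) - e0 I G)

lemma Fh_term_smooth (a : F →* G) (x : F) : ContDiffAt ℝ ∞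
    (fun p : (F → E) × E => extChartAt I (1 : G) (a x * ps I G (p.1 x) * ps I G p.2 * (a x)⁻¹))
    ((fun _ => e0 I G), e0 I G) := by
  rw [← contMDiffAt_iff_contDiffAt]
  have h1 : ContMDiffAt 𝓘(ℝ, (F → E) × E) I ∞ (fun p : (F → E) × E => ps I G (p.1 x))
      ((fun _ => e0 I G), e0 I G) := by
    have hl : ContMDiffAt 𝓘(ℝ, (F → E) × E) 𝓘(ℝ, E) ∞ (fun p : (F → E) × E => p.1 x)
        ((fun _ => e0 I G), e0 I G) := by
      rw [contMDiffAt_iff_contDiffAt]; fun_prop
    exact ContMDiffAt.comp (g := ps I G) (f := fun p : (F → E) × E => p.1 x) _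
      (ps_smooth I (G := G)) hl
  have h2 : ContMDiffAt 𝓘(ℝ, (F → E) × E) I ∞ (fun p : (F → E) × E => ps I G p.2)
      ((fun _ => e0 I G), e0 I G) := by
    have hl : ContMDiffAt 𝓘(ℝ, (F → E) × E) 𝓘(ℝ, E) ∞ (fun p : (F → E) × E => p.2)
        ((fun _ => e0 I G), e0 I G) := by
      rw [contMDiffAt_iff_contDiffAt]; fun_prop
    exact ContMDiffAt.comp (g := ps I G) (f := fun p : (F → E) × E => p.2) _
      (ps_smooth I (G := G)) hl
  have h3 : ContMDiffAt 𝓘(ℝ, (F → E) × E) I ∞
      (fun p : (F → E) × E => a x * ps I G (p.1 x) * ps I G p.2 * (a x)⁻¹)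
      ((fun _ => e0 I G), e0 I G) :=
    ((contMDiffAt_const.mul h1).mul h2).mul contMDiffAt_const
  have h5 : a x * ps I G (e0 I G) * ps I G (e0 I G) * (a x)⁻¹ = 1 := by rw [ps_e0]; group
  have h4 := ph_smooth I (G := G)
  have h6 : ContMDiffAt I 𝓘(ℝ, E) ∞ (extChartAt I (1 : G))
      ((fun p : (F → E) × E => a x * ps I G (p.1 x) * ps I G p.2 * (a x)⁻¹)
      ((fun _ => e0 I G), e0 I G)) := by
    simp only [h5]; exact h4
  exact ContMDiffAt.comp _ h6 h3

lemma Fh_smooth (a : F →* G) : ContDiffAt ℝ ∞ (Fh I a) ((fun _ => e0 I G), e0 I G) := by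
  unfold Fh
  apply ContDiffAt.const_smul
  apply ContDiffAt.sum
  intro x _
  exact (Dx I a x⁻¹).contDiff.contDiffAt.comp _ ((Fh_term_smooth I a x).sub contDiffAt_const)

lemma Fh_base (a : F →* G) : Fh I a ((fun _ => e0 I G), e0 I G) = 0 := by
  unfold Fh
  have : ∀ x, Dx I a x⁻¹ (extChartAt I (1 : G) (a x * ps I G (e0 I G) * ps I G (e0 I G) * (a x)⁻¹)
      - e0 I G) = 0 := by
    intro x
    have h5 : a x * ps I G (e0 I G) * ps I G (e0 I G) * (a x)⁻¹ = 1 := by rw [ps_e0]; group
    rw [h5]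
    have : extChartAt I (1 : G) 1 - e0 I G = 0 := by unfold e0; simp
    rw [this, map_zero]
  simp only [this, Finset.sum_const_zero, smul_zero]

lemma Fh_deriv (a : F →* G) (v : E) :
    fderiv ℝ (Fh I a) ((fun _ => e0 I G), e0 I G) (0, v) = v := by
  have hF := ((Fh_smooth I a).differentiableAt (by simp)).hasFDerivAt
  -- the partial map
  have h1 : HasFDerivAt (fun w : E => Fh I a ((fun _ => e0 I G), w))
      ((fderiv ℝ (Fh I a) ((fun _ => e0 I G), e0 I G)).comp
        (ContinuousLinearMap.inr ℝ (F → E) E)) (e0 I G) := by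
    have h2 : HasFDerivAt (fun w : E => (((fun _ => e0 I G) : F → E), w))
        (ContinuousLinearMap.inr ℝ (F → E) E) (e0 I G) :=
      hasFDerivAt_prodMk_right _ _
    exact HasFDerivAt.comp (e0 I G) hF h2
  have h2 : HasFDerivAt (fun w : E => Fh I a ((fun _ => e0 I G), w))
      (ContinuousLinearMap.id ℝ E) (e0 I G) := by
    have h3 : ∀ x : F, HasFDerivAt (fun w : E => Dx I a x⁻¹ (Ax I a x w - e0 I G))
        (ContinuousLinearMap.id ℝ E) (e0 I G) := by
      intro x
      have h4 : HasFDerivAt (fun w => Ax I a x w - e0 I G) (Dx I a x) (e0 I G) :=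
        (Ax_diff I a x).hasFDerivAt.sub_const _
      have h5 := (Dx I a x⁻¹).hasFDerivAt.comp (e0 I G) h4
      rwa [Dx_inv] at h5
    have h4 : HasFDerivAt (fun w : E => (Fintype.card F : ℝ)⁻¹ •
        ∑ x, Dx I a x⁻¹ (Ax I a x w - e0 I G))
        ((Fintype.card F : ℝ)⁻¹ • ∑ _x : F, ContinuousLinearMap.id ℝ E) (e0 I G) := by
      apply HasFDerivAt.const_smul
      exact HasFDerivAt.fun_sum (fun x _ => h3 x)
    have h5 : (Fintype.card F : ℝ)⁻¹ • ∑ _x : F, ContinuousLinearMap.id ℝ E =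
        ContinuousLinearMap.id ℝ E := by
      rw [Finset.sum_const, Finset.card_univ, ← Nat.cast_smul_eq_nsmul ℝ, smul_smul,
        inv_mul_cancel₀ (by exact_mod_cast Fintype.card_ne_zero), one_smul]
    rw [h5] at h4
    refine h4.congr_of_eventuallyEq (Filter.Eventually.of_forall fun w => ?_)
    unfold Fh Ax
    simp only [ps_e0, mul_one]
  have h3 := h1.unique h2
  have := congrArg (fun L => L v) h3
  simpa using this

/-- equivariance of the averaged map -/
lemma Fh_equiv (a : F →* G) (c : F → G) (hc : ∀ x y, c (x * y) = c x * c y) (w : F → E)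
    (hw : ∀ x, a x * ps I G (w x) = c x) (v : E) (y : F)
    (hs : c y * ps I G v * (a y)⁻¹ ∈ (extChartAt I (1 : G)).source) :
    Fh I a (w, extChartAt I (1 : G) (c y * ps I G v * (a y)⁻¹)) = Dx I a y (Fh I a (w, v)) := by
  unfold Fh
  rw [map_smul, map_sum]
  congr 1
  simp only [hw]
  rw [ps_ph I hs]
  refine Fintype.sum_equiv (Equiv.mulRight y) _ _ ?_
  intro x
  simp only [Equiv.coe_mulRight]
  rw [← ContinuousLinearMap.comp_apply, ← Dx_mul]
  have e1 : y * (x * y)⁻¹ = x⁻¹ := by group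
  rw [e1, hc, map_mul]
  congr 3
  group

include I in
/-- **Local rigidity**: homomorphisms from a finite group to a Lie group that are close to `a` are
conjugate to `a`. -/
theorem rigid (a : F →* G) : ∀ᶠ c in 𝓝 (a : F → G), (∀ x y, c (x * y) = c x * c y) →
    ∃ g : G, ∀ x, c x = g * a x * g⁻¹ := by
  have htg : IsTopologicalGroup G := topologicalGroup_of_lieGroup I ∞
  have hst : HasStrictFDerivAt (Fh I a) (fderiv ℝ (Fh I a) ((fun _ => e0 I G), e0 I G))
      ((fun _ => e0 I G), e0 I G) := (Fh_smooth I a).hasStrictFDerivAt (by simp)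
  obtain ⟨r, hr, hinj, hex⟩ := param_ift (Fh I a) _ _ _ hst (Fh_deriv I a) (Fh_base I a)
  -- the parameter
  have hw : Tendsto (fun c : F → G => fun x => extChartAt I (1 : G) ((a x)⁻¹ * c x)) (𝓝 (a : F → G))
      (𝓝 (fun _ => e0 I G)) := by
    rw [tendsto_pi_nhds]
    intro x
    have h1 : ContinuousAt (fun c : F → G => (a x)⁻¹ * c x) (a : F → G) :=
      (continuous_const.mul (continuous_apply x)).continuousAt
    have h2 : (a x)⁻¹ * a x = 1 := by group
    have h3 : Tendsto (fun c : F → G => (a x)⁻¹ * c x) (𝓝 (a : F → G)) (𝓝 1) := by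
      have h4 : Tendsto (fun c : F → G => (a x)⁻¹ * c x) (𝓝 (a : F → G)) (𝓝 ((a x)⁻¹ * a x)) := h1
      rwa [h2] at h4
    have h5 : Tendsto (extChartAt I (1 : G)) (𝓝 1) (𝓝 (e0 I G)) := continuousAt_extChartAt (1 : G)
    exact h5.comp h3
  have hsrc : ∀ᶠ c in 𝓝 (a : F → G), ∀ x, (a x)⁻¹ * c x ∈ (extChartAt I (1 : G)).source := by
    rw [Filter.eventually_all]
    intro x
    have h1 : ContinuousAt (fun c : F → G => (a x)⁻¹ * c x) (a : F → G) :=
      (continuous_const.mul (continuous_apply x)).continuousAt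
    apply h1.eventually_mem
    have h2 : (a x)⁻¹ * a x = 1 := by group
    simp only [h2]
    exact extChartAt_source_mem_nhds (1 : G)
  -- the images
  have himg : ∀ᶠ p in 𝓝 ((a : F → G), e0 I G), ∀ y,
      (p.1 y * ps I G p.2 * (a y)⁻¹ ∈ (extChartAt I (1 : G)).source) ∧
      extChartAt I (1 : G) (p.1 y * ps I G p.2 * (a y)⁻¹) ∈ ball (e0 I G) r := by
    rw [Filter.eventually_all]
    intro y
    have h1 : ContinuousAt (fun p : (F → G) × E => p.1 y * ps I G p.2 * (a y)⁻¹)
        ((a : F → G), e0 I G) := by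
      have h2 : ContinuousAt (fun p : (F → G) × E => ps I G p.2) ((a : F → G), e0 I G) :=
        ContinuousAt.comp (f := fun p : (F → G) × E => p.2) (ps_cont I (G := G)) (by fun_prop)
      have h3 : ContinuousAt (fun p : (F → G) × E => p.1 y) ((a : F → G), e0 I G) := by fun_prop
      exact (h3.mul h2).mul continuousAt_const
    have h2 : a y * ps I G (e0 I G) * (a y)⁻¹ = 1 := by rw [ps_e0]; group
    have h3 : ∀ᶠ g in 𝓝 (1 : G), g ∈ (extChartAt I (1 : G)).source ∧
        extChartAt I (1 : G) g ∈ ball (e0 I G) r := by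
      apply Filter.Eventually.and
      · exact extChartAt_source_mem_nhds (1 : G)
      · exact (continuousAt_extChartAt (1 : G)).eventually_mem (ball_mem_nhds _ hr)
    have h4 : Tendsto (fun p : (F → G) × E => p.1 y * ps I G p.2 * (a y)⁻¹)
        (𝓝 ((a : F → G), e0 I G)) (𝓝 1) := by
      rw [ContinuousAt] at h1
      simp only [h2] at h1
      exact h1
    exact h4.eventually h3
  rw [nhds_prod_eq] at himg
  obtain ⟨pa, hpa, pb, hpb, himg⟩ := Filter.eventually_prod_iff.mp himg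
  obtain ⟨ρ', hρ', hball⟩ := Metric.eventually_nhds_iff_ball.mp hpb
  set ρ := min ρ' r with hρ
  have hρ0 : 0 < ρ := lt_min hρ' hr
  have hinj' := hw.eventually hinj
  have hex' := hw.eventually (hex ρ hρ0)
  filter_upwards [hinj', hex', hsrc, hpa] with c hc1 hc2 hc3 hc4 hhom
  obtain ⟨v, hv, hv0⟩ := hc2
  set w : F → E := fun x => extChartAt I (1 : G) ((a x)⁻¹ * c x) with hwdef
  have hww : ∀ x, a x * ps I G (w x) = c x := by
    intro x
    rw [hwdef]
    simp only
    rw [ps_ph I (hc3 x)]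
    group
  refine ⟨ps I G v, fun y => ?_⟩
  have hvρ' : v ∈ ball (e0 I G) ρ' := ball_subset_ball (min_le_left _ _) hv
  have hvr : v ∈ ball (e0 I G) r := ball_subset_ball (min_le_right _ _) hv
  obtain ⟨hs, hb⟩ := himg hc4 (hball v hvρ') y
  simp only at hs hb
  have hE := Fh_equiv I a c hhom w hww v y hs
  rw [hv0, map_zero] at hE
  have : extChartAt I (1 : G) (c y * ps I G v * (a y)⁻¹) = v :=
    hc1 hb hvr (by simp only; rw [hE, hv0])
  have h7 : ps I G v = c y * ps I G v * (a y)⁻¹ := by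
    conv_lhs => rw [← this]
    exact ps_ph I hs
  have h8 : c y * ps I G v = ps I G v * a y := by
    conv_rhs => rw [h7]
    group
  rw [eq_mul_inv_iff_mul_eq]
  exact h8

end rigid

end

end Pool.Agent.Q131.Lie
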